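import Mathlib

/-!
# MP_32d4a3_co: a 7-partite 2-intersecting hypergraph with cover number 4

The edges of a 7-partite hypergraph with vertex classes `{i} × {0, 1, 2, 3}` are the words `e : Fin 7 → Fin 4`. The 22 edges are
the cyclic rotations of the words 3333333, 2332220, 2223230, 3222321. Any two agree in at least two places, and no three
vertices meet all of them. The formula of the problem predicts that three vertices suffice.
-/

set_option autoImplicit false

namespace Pool.Agent.Results.MP_32d4a3_co.RyserSevenTwo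

open Finset

/-- the four base words -/
def base : Fin 4 → Fin 7 → Fin 4 :=
  ![![3, 3, 3, 3, 3, 3, 3], ![2, 3, 3, 2, 2, 2, 0], ![2, 2, 2, 3, 2, 3, 0], ![3, 2, 2, 2, 3, 2, 1]]

/-- the edges: all cyclic rotations of the base words -/
def edges : Finset (Fin 7 → Fin 4) :=
  (univ : Finset (Fin 4 × Fin 7)).image fun p i => base p.1 (i + p.2)

/-! ### the branching search -/

/-- digit `i` (base four) of the code `n` -/
def dig (n : ℕ) (i : Fin 7) : ℕ := n / 4 ^ (i : ℕ) % 4

/-- the rotations of a word of digits -/
def rots (l : List ℕ) : List (List ℕ) := (List.range 7).map fun k => l.rotate k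

/-- the code of a list of digits -/
def codeL (l : List ℕ) : ℕ := l.foldr (fun a n => a + 4 * n) 0

/-- the 22 codes -/
def wds : List ℕ :=
  codeL [3, 3, 3, 3, 3, 3, 3] :: ((rots [2, 3, 3, 2, 2, 2, 0] ++ rots [2, 2, 2, 3, 2, 3, 0] ++
    rots [3, 2, 2, 2, 3, 2, 1]).map codeL)

/-- the search finds no cover of `L` by `k` pairs (coordinate, value) -/
def noCover : ℕ → List ℕ → Bool
  | _, [] => false
  | 0, _ :: _ => true
  | k + 1, w :: L =>
      (List.finRange 7).all fun i => noCover k ((w :: L).filter fun v => !(dig v i == dig w i))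

theorem noCover_spec : ∀ (k : ℕ) (L : List ℕ), noCover k L = true →
    ∀ C : Finset (Fin 7 × ℕ), (∀ w ∈ L, ∃ i : Fin 7, (i, dig w i) ∈ C) → k < C.card
  | _, [], h, _, _ => by simp [noCover] at h
  | 0, w :: L, _, C, hC => by
      obtain ⟨i, hi⟩ := hC w (by simp)
      exact Finset.card_pos.mpr ⟨_, hi⟩
  | k + 1, w :: L, h, C, hC => by
      obtain ⟨i, hi⟩ := hC w (by simp)
      have h' := h
      rw [noCover, List.all_eq_true] at h'
      have h1 := h' i (List.mem_finRange i)
      have h2 := noCover_spec k _ h1 (C.erase (i, dig w i)) (by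
        intro v hv
        rw [List.mem_filter] at hv
        obtain ⟨hv1, hv2⟩ := hv
        obtain ⟨j, hj⟩ := hC v hv1
        refine ⟨j, Finset.mem_erase.mpr ⟨?_, hj⟩⟩
        intro he
        have hji : j = i := congrArg Prod.fst he
        subst hji
        have : dig v j = dig w j := congrArg Prod.snd he
        simp [this] at hv2)
      rw [Finset.card_erase_of_mem hi] at h2
      omega

set_option maxRecDepth 100000 in
theorem wds_noCover : noCover 3 wds = true := by decide +kernel

set_option maxRecDepth 100000 in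
theorem wds_edges : (wds.all fun w => decide (∃ e ∈ edges, ∀ i, (e i : ℕ) = dig w i)) = true := by
  decide +kernel

set_option maxRecDepth 100000 in
theorem edges_card : edges.card = 22 := by decide +kernel

set_option maxRecDepth 100000 in
theorem base_agree : ∀ p q : Fin 4 × Fin 7,
    2 ≤ (univ.filter fun i => base p.1 (i + p.2) = base q.1 (i + q.2)).card := by decide +kernel

theorem edges_agree : ∀ e ∈ edges, ∀ f ∈ edges,
    2 ≤ (univ.filter fun i => e i = f i).card := by
  intro e he f hf
  obtain ⟨p, -, rfl⟩ := Finset.mem_image.1 he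
  obtain ⟨q, -, rfl⟩ := Finset.mem_image.1 hf
  exact base_agree p q

/-- no three vertices meet all edges -/
theorem cover_large (C : Finset (Fin 7 × Fin 4)) (hC : ∀ e ∈ edges, ∃ i, (i, e i) ∈ C) :
    4 ≤ C.card := by
  have h1 := noCover_spec 3 wds wds_noCover (C.image fun p => (p.1, (p.2 : ℕ))) (by
    intro w hw
    have h2 := wds_edges
    rw [List.all_eq_true] at h2
    obtain ⟨e, he, hew⟩ := of_decide_eq_true (h2 w hw)
    obtain ⟨i, hi⟩ := hC e he
    refine ⟨i, ?_⟩
    rw [Finset.mem_image]
    exact ⟨(i, e i), hi, by rw [← hew i]⟩)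
  exact (Nat.succ_le_of_lt h1).trans Finset.card_image_le

/-- The 22 edges pairwise share at least two vertices, every cover has at least four vertices, and four
vertices (a whole class) suffice: this 7-partite 2-intersecting hypergraph has cover number
`4 > ⌊(7 - 2) / 2⌋ + 1 = 3`. -/
theorem result : edges.card = 22 ∧
    (∀ e ∈ edges, ∀ f ∈ edges, 2 ≤ (univ.filter fun i => e i = f i).card) ∧
    (∀ C : Finset (Fin 7 × Fin 4), (∀ e ∈ edges, ∃ i, (i, e i) ∈ C) → 4 ≤ C.card) ∧
    (∃ C : Finset (Fin 7 × Fin 4), C.card = 4 ∧ ∀ e ∈ edges, ∃ i, (i, e i) ∈ C) := by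
  refine ⟨edges_card, edges_agree, cover_large, ?_⟩
  refine ⟨(univ : Finset (Fin 4)).image fun a => ((0 : Fin 7), a), by decide +kernel, ?_⟩
  intro e _
  exact ⟨0, Finset.mem_image_of_mem _ (Finset.mem_univ _)⟩

end Pool.Agent.Results.MP_32d4a3_co.RyserSevenTwo
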